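import Pool.Agent.MDE.FIN

/-!
# The main conjecture for MDS codes: all even `q`, and odd `q` outside a middle zone

For a finite field `F` with `q` elements, of characteristic `p`, and `2 ≤ k < q`, assume that
`p = 2`, or `(2 p - 3) k ≤ (q + 5) (p - 2) + p`, or the same inequality for `q + 2 - k` in place of
`k`. Then the largest length of a `k`-dimensional MDS code over `F` is `q + 2` if `q` is even and
`k = 3` or `k = q - 1`, and `q + 1` otherwise. (For `q` prime and for `q = 9, 25, 49` this covers all
`2 ≤ k < q`.)

The proof for even `q` is in the files `Pool/Agent/MDE`. The tangent forms of a planar arc of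
`q + 2 - t` points glue to a form `Φ` of degree `t` on the dual plane, and the mixed second
derivatives of the product of `Φ` and of the lines of the arc are the coordinates to the power `q`.
So for an arc `S` of `q + 2` vectors in `F ^ k`, square roots of coordinates are forms of degree
`q / 2` on the pencil of every set of `k - 2` points of `S`. For a projection `K` of `S` to the plane
the space of all functions on `K` with this property has dimension at least `k`; on the other hand
it is described by syzygies modulo the product of the lines of `K`, and its dimension is at most
`k - 1` since the Hilbert function of a codimension three Gorenstein algebra is unimodal.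

The proof for odd `q` is in the files `Pool/Agent/MDS`: an arc of `q + 2` vectors in `F ^ k` gives a
nowhere zero solution of a linear system; on the Gale dual side it is a cocycle of a double complex
made of a `p`-complex (`σ ^ p = 0`) and of Koszul complexes, which is shown to vanish.
-/

set_option autoImplicit false

namespace Pool.Agent.Results.MP_b6c9b4_co.EvenAndOddRange

theorem result (F : Type) [Field F] [Fintype F] [DecidableEq F] (p : ℕ) [Fact p.Prime]
    [CharP F p] (k : ℕ) (hk2 : 2 ≤ k) (hkq : k < Fintype.card F)
    (hr : p = 2 ∨ (2 * p - 3) * k ≤ (Fintype.card F + 5) * (p - 2) + p ∨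
      (2 * p - 3) * (Fintype.card F + 2 - k) ≤ (Fintype.card F + 5) * (p - 2) + p) :
    IsGreatest
      {n : ℕ | ∃ C : Submodule F (Fin n → F),
        Module.finrank F C = k ∧
        ∀ x ∈ C, x ≠ 0 → n - k + 1 ≤ hammingNorm x}
      (if Even (Fintype.card F) ∧ (k = 3 ∨ k = Fintype.card F - 1)
        then Fintype.card F + 2 else Fintype.card F + 1) := by
  obtain ⟨n, hn⟩ := FiniteField.card F p
  by_cases hp : p = 2
  · subst hp
    have he : Even (Fintype.card F) := by
      rw [hn.2]
      exact (Nat.even_pow.2 ⟨even_two, n.ne_zero⟩)
    have h := MDE.main_even (F := F) he k hk2 hkq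
    have e : (if Even (Fintype.card F) ∧ (k = 3 ∨ k = Fintype.card F - 1)
        then Fintype.card F + 2 else Fintype.card F + 1)
        = (if k = 3 ∨ k = Fintype.card F - 1 then Fintype.card F + 2
          else Fintype.card F + 1) := by
      simp [he]
    rw [e]
    exact h
  · have ho : ¬ Even (Fintype.card F) := by
      rw [Nat.not_even_iff_odd, hn.2]
      exact ((Fact.out : p.Prime).odd_of_ne_two hp).pow
    rw [if_neg (fun h => ho h.1)]
    exact MDS.main F p hp k hk2 hkq (hr.resolve_left hp)

end Pool.Agent.Results.MP_b6c9b4_co.EvenAndOddRange
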